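import Pool.Agent.KS6_49.L8.H614R2.DPO.Core

/-!
# The algorithm for the core problem
-/

namespace Pool.Agent.H614R2.DPO

open Relation

/-- All lists of length at most `m` with members in `L`. -/
def upTo {X : Type} : ℕ → List X → List (List X)
  | 0, _ => [[]]
  | m + 1, L => [] :: L.flatMap (fun x => (upTo m L).map (fun l => x :: l))

section reach

variable {X : Type} [DecidableEq X]

/-- The members of the list `S` reachable from `x` inside `S`. -/
def reachG (R : X → X → Bool) (S : List X) (x : X) : List X :=
  (fun L : List X => S.filter (fun y => decide (y ∈ L) || L.any (fun z => R z y)))^[S.length]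
    (S.filter (fun y => decide (y = x)))

end reach

variable {X : Type} [DecidableEq X] (I : Inst X)

/-! ### The game on lists -/

/-- test for `rel` -/
def relB (t t' : Track X) : Bool := decide (t.col ≠ t'.col) && decide (t.clk = t'.clk)

/-- The pebble described by `z` (track, old position, new position) moves. -/
def movesB (Z : List (Track X × X × X)) (z : Track X × X × X) : Bool :=
  decide (z.2.1 ≠ z.1.tgt) && Z.all (fun z' => decide (z'.2.1 = z'.1.tgt) ||
    decide (I.f z.1.clk z.2.1 ≤ I.f z'.1.clk z'.2.1))

/-- test for `Valid` -/
def validB (T : List (Track X)) (S : List X) : Bool :=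
  (T.zip S).all (fun a => (T.zip S).all (fun b =>
    !(relB a.1 b.1) || !(I.C (a.2, a.2) (b.2, b.2))))

/-- the part of the test for `Step` which concerns all the pebbles `Z` -/
def moveB (F : List (ℕ × X × X)) (Z : List (Track X × X × X)) : Bool :=
  Z.all (fun z =>
    if movesB I Z z = true then
      I.mv z.1 z.2.1 z.2.2 &&
      (F.all (fun g => decide (g.1 = z.1.col) || !(I.C g.2 (ori z.1.dir z.2))) &&
      Z.all (fun z' => !(relB z.1 z'.1) || (!(movesB I Z z') ||
        !(I.C (ori z.1.dir z.2) (ori z'.1.dir z'.2)))))
    else decide (z.2.2 = z.2.1))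

/-- test for `Step` -/
def stepB (F : List (ℕ × X × X)) (T : List (Track X)) (S S' : List X) : Bool :=
  decide (S.length = T.length) && (decide (S'.length = T.length) &&
    (validB I T S && moveB I F (T.zip (S.zip S'))))

/-- test for `Good`, at the beginning -/
def gameB (B : ℕ) (F : List (ℕ × X × X)) (T : List (Track X)) : Bool :=
  validB I T (T.map Track.tgt) &&
    decide (T.map Track.tgt ∈ reachG (stepB I F T) (upTo B I.nodes) (T.map Track.src))

/-! ### Certificates -/

/-- The arcs between consecutive pieces. -/
def links (L : List (X × X × ℕ × Bool)) : List (X × X) :=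
  (L.zip L.tail).map (fun p => (p.1.2.1, p.2.1))

/-- the list of pieces describes a path of colour `i` -/
def colOk (i : ℕ) (L : List (X × X × ℕ × Bool)) : Bool :=
  L.head?.any (fun q => I.S i q.1) && (L.reverse.head?.any (fun q => I.T i q.2.1) &&
    (links L).all (fun e => I.A i e.1 e.2))

/-- all the tracks of a certificate -/
def tracks (Ct : List (List (X × X × ℕ × Bool))) : List (Track X) :=
  Ct.zipIdx.flatMap (fun p => p.1.map (fun q => (p.2, q)))

/-- all the fixed arcs of a certificate, with their colours -/
def fixedArcs (Ct : List (List (X × X × ℕ × Bool))) : List (ℕ × X × X) :=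
  Ct.zipIdx.flatMap (fun p => (links p.1).map (fun e => (p.2, e)))

/-- the elements of all the possible paths of a track -/
def sem (t : Track X) : List (X × X) :=
  I.nodes.flatMap (fun x => (I.nodes.filter (fun y =>
    decide (x ∈ reachG (I.A t.col) I.nodes t.fst) && ((decide (x = y) || I.A t.col x y) &&
      decide (t.lst ∈ reachG (I.A t.col) I.nodes y)))).map (fun y => (x, y)))

/-- no conflicts between possible paths of tracks with different clocks -/
def linkFree (T : List (Track X)) : Bool :=
  T.all (fun t => T.all (fun t' => decide (t.col = t'.col) || (decide (t.clk = t'.clk) ||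
    (sem I t).all (fun e => (sem I t').all (fun e' => !(I.C e e'))))))

/-- no conflicts between fixed arcs -/
def fixOk (F : List (ℕ × X × X)) : Bool :=
  F.all (fun g => F.all (fun g' => decide (g.1 = g'.1) || !(I.C g.2 g'.2)))

/-- the test of a certificate -/
def chk (B : ℕ) (Ct : List (List (X × X × ℕ × Bool))) : Bool :=
  decide (Ct.length = I.k) && (Ct.zipIdx.all (fun p => colOk I p.2 p.1) &&
    (fixOk I (fixedArcs Ct) && (linkFree I (tracks Ct) && gameB I B (fixedArcs Ct) (tracks Ct))))

/-- all possible members of certificates -/
def cands : List (X × X × ℕ × Bool) :=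
  I.nodes.flatMap (fun x => I.nodes.flatMap (fun y => (List.range I.k).flatMap (fun l =>
    [(x, y, l, true), (x, y, l, false)])))

/-- the steps of words -/
def steps (k : ℕ) : List (ℕ × Bool) := (List.range k).flatMap (fun m => [(m, true), (m, false)])

/-- the words -/
def wordsK (k : ℕ) : List (List (ℕ × Bool)) := upTo k (steps k)

/-- the bound for the number of pieces of a path -/
def bnd (k : ℕ) : ℕ := 2 * (wordsK k).length + 1

/-- The algorithm. -/
def solve : Bool :=
  (upTo I.k (upTo (bnd I.k) (cands I))).any (fun Ct => chk I (I.k * bnd I.k) Ct)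

end Pool.Agent.H614R2.DPO
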