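import Pool.Agent.KS6_49.L8.H614R2.DPO.Algo
import Pool.Agent.KS6_49.L8.H614R2.DPO.TG1

/-!
# Task G2 (helper880): list reachability and the game on lists
-/

namespace Pool.Agent.H614R2.DPO

open Relation

section G2

variable {X : Type}

theorem mem_upTo {m : ℕ} {L l : List X} : l ∈ upTo m L ↔ l.length ≤ m ∧ ∀ x ∈ l, x ∈ L := by
  induction m generalizing l with
  | zero =>
    unfold upTo
    rw [List.mem_singleton]
    constructor
    · rintro rfl
      simp
    · rintro ⟨h, _⟩
      exact List.eq_nil_of_length_eq_zero (by omega)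
  | succ m ih =>
    unfold upTo
    rw [List.mem_cons, List.mem_flatMap]
    constructor
    · rintro (rfl | ⟨x, hx, hl⟩)
      · simp
      · rw [List.mem_map] at hl
        obtain ⟨l', hl', rfl⟩ := hl
        obtain ⟨h1, h2⟩ := ih.1 hl'
        refine ⟨by rw [List.length_cons]; omega, ?_⟩
        intro y hy
        rcases List.mem_cons.1 hy with rfl | hy
        · exact hx
        · exact h2 y hy
    · rintro ⟨h1, h2⟩
      cases l with
      | nil => exact Or.inl rfl
      | cons x l' =>
        right
        refine ⟨x, h2 x List.mem_cons_self, ?_⟩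
        rw [List.mem_map]
        refine ⟨l', ih.2 ⟨?_, fun y hy => h2 y (List.mem_cons_of_mem _ hy)⟩, rfl⟩
        rw [List.length_cons] at h1
        omega

section reach

variable [DecidableEq X] {R : X → X → Bool} {S : List X} {x y : X}

/-- one round -/
def g2_rnd (R : X → X → Bool) (S L : List X) : List X :=
  S.filter (fun y => decide (y ∈ L) || L.any (fun z => R z y))

/-- the rounds -/
def g2_it (R : X → X → Bool) (S : List X) (x : X) (k : ℕ) : List X :=
  (g2_rnd R S)^[k] (S.filter (fun y => decide (y = x)))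

theorem g2_reachG_eq : reachG R S x = g2_it R S x S.length := rfl

theorem g2_it_succ (k : ℕ) : g2_it R S x (k + 1) = g2_rnd R S (g2_it R S x k) := by
  unfold g2_it
  rw [Function.iterate_succ', Function.comp_apply]

theorem g2_mem_rnd {L : List X} : y ∈ g2_rnd R S L ↔ y ∈ S ∧ (y ∈ L ∨ ∃ z ∈ L, R z y = true) := by
  unfold g2_rnd
  simp only [List.mem_filter, Bool.or_eq_true, decide_eq_true_eq, List.any_eq_true]

theorem g2_mem_zero : y ∈ g2_it R S x 0 ↔ y ∈ S ∧ y = x := by
  unfold g2_it
  simp only [Function.iterate_zero, id_eq, List.mem_filter, decide_eq_true_eq]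

theorem g2_sound (k : ℕ) : ∀ y ∈ g2_it R S x k,
    x ∈ S ∧ y ∈ S ∧ ReflTransGen (fun a b => R a b = true ∧ b ∈ S) x y := by
  induction k with
  | zero =>
    intro y hy
    obtain ⟨h1, rfl⟩ := g2_mem_zero.1 hy
    exact ⟨h1, h1, .refl⟩
  | succ k ih =>
    intro y hy
    rw [g2_it_succ, g2_mem_rnd] at hy
    obtain ⟨hyS, hy | ⟨z, hz, hzy⟩⟩ := hy
    · exact ih y hy
    · obtain ⟨h1, _, h3⟩ := ih z hz
      exact ⟨h1, hyS, h3.tail ⟨hzy, hyS⟩⟩

theorem g2_step (k : ℕ) : ∀ y ∈ g2_it R S x k, y ∈ g2_it R S x (k + 1) := by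
  intro y hy
  rw [g2_it_succ, g2_mem_rnd]
  exact ⟨(g2_sound k y hy).2.1, Or.inl hy⟩

/-- the round number `k` is stable -/
def G2st (R : X → X → Bool) (S : List X) (x : X) (k : ℕ) : Prop :=
  ∀ y ∈ g2_it R S x (k + 1), y ∈ g2_it R S x k

theorem g2_st_succ {k : ℕ} (h : G2st R S x k) : G2st R S x (k + 1) := by
  intro y hy
  rw [g2_it_succ, g2_mem_rnd] at hy
  rw [g2_it_succ, g2_mem_rnd]
  obtain ⟨hyS, hy | ⟨z, hz, hzy⟩⟩ := hy
  · exact ⟨hyS, Or.inl (h y hy)⟩
  · exact ⟨hyS, Or.inr ⟨z, h z hz, hzy⟩⟩

theorem g2_card (hx : x ∈ S) (k : ℕ) : G2st R S x k ∨ k + 1 ≤ (g2_it R S x k).toFinset.card := by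
  induction k with
  | zero =>
    right
    have : x ∈ (g2_it R S x 0).toFinset := by
      rw [List.mem_toFinset, g2_mem_zero]
      exact ⟨hx, rfl⟩
    exact Finset.card_pos.2 ⟨x, this⟩
  | succ k ih =>
    by_cases hst : G2st R S x k
    · exact Or.inl (g2_st_succ hst)
    · right
      rcases ih with h | h
      · exact absurd h hst
      · have hlt : (g2_it R S x k).toFinset ⊂ (g2_it R S x (k + 1)).toFinset := by
          rw [Finset.ssubset_iff_subset_ne]
          refine ⟨fun y hy => ?_, fun he => hst fun y hy => ?_⟩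
          · rw [List.mem_toFinset] at hy ⊢
            exact g2_step k y hy
          · rw [← List.mem_toFinset, ← he, List.mem_toFinset] at hy
            exact hy
        have := Finset.card_lt_card hlt
        omega

theorem g2_stable (hx : x ∈ S) : G2st R S x S.length := by
  rcases g2_card (R := R) hx S.length with h | h
  · exact h
  · exfalso
    have h1 : (g2_it R S x S.length).toFinset ⊆ S.toFinset := by
      intro y hy
      rw [List.mem_toFinset] at hy ⊢
      exact (g2_sound _ y hy).2.1
    have h2 := Finset.card_le_card h1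
    have h3 := S.toFinset_card_le
    omega

theorem g2_mono (k : ℕ) : ∀ y ∈ g2_it R S x 0, y ∈ g2_it R S x k := by
  induction k with
  | zero => exact fun y hy => hy
  | succ k ih => exact fun y hy => g2_step k y (ih y hy)

end reach

theorem mem_reachG [DecidableEq X] {R : X → X → Bool} {S : List X} {x y : X} :
    y ∈ reachG R S x ↔ x ∈ S ∧ ReflTransGen (fun a b => R a b = true ∧ b ∈ S) x y := by
  rw [g2_reachG_eq]
  constructor
  · intro h
    exact ⟨(g2_sound _ y h).1, (g2_sound _ y h).2.2⟩
  · rintro ⟨hx, h⟩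
    induction h with
    | refl => exact g2_mono _ _ (g2_mem_zero.2 ⟨hx, rfl⟩)
    | tail _ hbc ih =>
      apply g2_stable hx
      rw [g2_it_succ, g2_mem_rnd]
      exact ⟨hbc.2, Or.inr ⟨_, ih, hbc.1⟩⟩

section game

variable [DecidableEq X] {I : Inst X} {F : List (ℕ × X × X)} {T : List (Track X)}

omit [DecidableEq X] in
theorem g2_relB {t t' : Track X} : relB t t' = true ↔ rel t t' := by
  unfold relB rel
  rw [Bool.and_eq_true, decide_eq_true_eq, decide_eq_true_eq]

omit [DecidableEq X] in
theorem g2_zip {s : Fin T.length → X} {a : Track X × X} :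
    a ∈ T.zip (List.ofFn s) ↔ ∃ p, a = (T.get p, s p) := by
  rw [List.mem_iff_get]
  constructor
  · rintro ⟨n, rfl⟩
    have hn : n.1 < T.length := by
      have h0 : (T.zip (List.ofFn s)).length = T.length := by
        rw [List.length_zip, List.length_ofFn, min_self]
      exact lt_of_lt_of_eq n.2 h0
    refine ⟨⟨n.1, hn⟩, ?_⟩
    simp [List.get_eq_getElem, List.getElem_zip]
  · rintro ⟨p, rfl⟩
    refine ⟨⟨p.1, by rw [List.length_zip, List.length_ofFn, min_self]; exact p.2⟩, ?_⟩
    simp [List.get_eq_getElem, List.getElem_zip]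

omit [DecidableEq X] in
theorem g2_zip3 {s s' : Fin T.length → X} {a : Track X × X × X} :
    a ∈ T.zip ((List.ofFn s).zip (List.ofFn s')) ↔ ∃ p, a = (T.get p, s p, s' p) := by
  rw [List.mem_iff_get]
  constructor
  · rintro ⟨n, rfl⟩
    have hn : n.1 < T.length := by
      have h0 : (T.zip ((List.ofFn s).zip (List.ofFn s'))).length = T.length := by
        rw [List.length_zip, List.length_zip, List.length_ofFn, List.length_ofFn, min_self,
          min_self]
      exact lt_of_lt_of_eq n.2 h0
    refine ⟨⟨n.1, hn⟩, ?_⟩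
    simp [List.get_eq_getElem, List.getElem_zip]
  · rintro ⟨p, rfl⟩
    refine ⟨⟨p.1, by
      rw [List.length_zip, List.length_zip, List.length_ofFn, List.length_ofFn, min_self,
        min_self]
      exact p.2⟩, ?_⟩
    simp [List.get_eq_getElem, List.getElem_zip]

theorem g2_valid {s : Fin T.length → X} :
    validB I T (List.ofFn s) = true ↔ Valid I T.get s := by
  unfold validB Valid
  simp only [List.all_eq_true]
  constructor
  · intro h p q hpq
    have h1 := h (T.get p, s p) (g2_zip.2 ⟨p, rfl⟩) (T.get q, s q) (g2_zip.2 ⟨q, rfl⟩)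
    have h2 := g2_relB.2 hpq
    simp only at h1
    rw [h2] at h1
    simpa using h1
  · intro h a ha b hb
    obtain ⟨p, rfl⟩ := g2_zip.1 ha
    obtain ⟨q, rfl⟩ := g2_zip.1 hb
    by_cases hr : relB (T.get p) (T.get q) = true
    · have := h p q (g2_relB.1 hr)
      simp only
      rw [this, hr]
      rfl
    · simp only
      rw [Bool.not_eq_true] at hr
      rw [hr]
      rfl

theorem g2_moves {s s' : Fin T.length → X} {p : Fin T.length} :
    movesB I (T.zip ((List.ofFn s).zip (List.ofFn s'))) (T.get p, s p, s' p) = true ↔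
      Moves I T.get s p := by
  unfold movesB Moves
  simp only [Bool.and_eq_true, decide_eq_true_eq, List.all_eq_true, Bool.or_eq_true]
  refine and_congr Iff.rfl ?_
  constructor
  · intro h q hq
    rcases h (T.get q, s q, s' q) (g2_zip3.2 ⟨q, rfl⟩) with h1 | h1
    · exact absurd h1 hq
    · exact h1
  · intro h z hz
    obtain ⟨q, rfl⟩ := g2_zip3.1 hz
    by_cases hq : s q = (T.get q).tgt
    · exact Or.inl hq
    · exact Or.inr (h q hq)

theorem g2_stepB {s s' : Fin T.length → X} :
    stepB I F T (List.ofFn s) (List.ofFn s') = true ↔ Step I F T.get s s' := by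
  unfold stepB Step
  simp only [Bool.and_eq_true, decide_eq_true_eq, List.length_ofFn, true_and, g2_valid]
  refine and_congr Iff.rfl ?_
  unfold moveB
  simp only [List.all_eq_true]
  constructor
  · intro h
    refine ⟨?_, ?_, ?_⟩
    · intro p hp
      have h1 := h (T.get p, s p, s' p) (g2_zip3.2 ⟨p, rfl⟩)
      rw [if_pos (g2_moves.2 hp)] at h1
      simp only [Bool.and_eq_true, List.all_eq_true, Bool.or_eq_true, decide_eq_true_eq] at h1
      refine ⟨h1.1, fun g hg hne => ?_⟩
      rcases h1.2.1 g hg with h2 | h2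
      · exact absurd h2 hne
      · simpa using h2
    · intro p hp
      have h1 := h (T.get p, s p, s' p) (g2_zip3.2 ⟨p, rfl⟩)
      rw [if_neg (fun hh => hp (g2_moves.1 hh)), decide_eq_true_eq] at h1
      exact h1
    · intro p q hpq hp hq
      have h1 := h (T.get p, s p, s' p) (g2_zip3.2 ⟨p, rfl⟩)
      rw [if_pos (g2_moves.2 hp)] at h1
      simp only [Bool.and_eq_true, List.all_eq_true, Bool.or_eq_true, decide_eq_true_eq] at h1
      have h2 := h1.2.2 (T.get q, s q, s' q) (g2_zip3.2 ⟨q, rfl⟩)
      rcases h2 with h2 | h2 | h2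
      · rw [g2_relB.2 hpq] at h2
        simp at h2
      · rw [g2_moves.2 hq] at h2
        simp at h2
      · simpa using h2
  · rintro ⟨h1, h2, h3⟩ z hz
    obtain ⟨p, rfl⟩ := g2_zip3.1 hz
    by_cases hp : Moves I T.get s p
    · rw [if_pos (g2_moves.2 hp)]
      simp only [Bool.and_eq_true, List.all_eq_true, Bool.or_eq_true, decide_eq_true_eq]
      refine ⟨(h1 p hp).1, fun g hg => ?_, fun z' hz' => ?_⟩
      · by_cases hc : g.1 = (T.get p).col
        · exact Or.inl hc
        · right
          rw [(h1 p hp).2 g hg hc]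
          rfl
      · obtain ⟨q, rfl⟩ := g2_zip3.1 hz'
        by_cases hr : relB (T.get p) (T.get q) = true
        · right
          by_cases hq : Moves I T.get s q
          · right
            rw [h3 p q (g2_relB.1 hr) hp hq]
            rfl
          · left
            have : ¬ movesB I (T.zip ((List.ofFn s).zip (List.ofFn s'))) (T.get q, s q, s' q) =
                true := fun hh => hq (g2_moves.1 hh)
            rw [Bool.not_eq_true] at this
            rw [this]
            rfl
        · left
          rw [Bool.not_eq_true] at hr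
          rw [hr]
          rfl
    · rw [if_neg (fun hh => hp (g2_moves.1 hh)), decide_eq_true_eq]
      exact h2 p hp

omit [DecidableEq X] in
theorem g2_exists_ofFn {S : List X} (h : S.length = T.length) :
    ∃ s : Fin T.length → X, S = List.ofFn s := by
  refine ⟨fun p => S.get (Fin.cast h.symm p), ?_⟩
  apply List.ext_get
  · rw [List.length_ofFn, h]
  · intro n h1 h2
    simp

omit [DecidableEq X] in
theorem g2_map {Y : Type} (g : Track X → Y) : T.map g = List.ofFn (fun p => g (T.get p)) := by
  conv_lhs => rw [← List.ofFn_get T]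
  rw [List.map_ofFn]
  rfl

end game

theorem gameB_iff [DecidableEq X] {I : Inst X} {F : List (ℕ × X × X)} {B : ℕ}
    {T : List (Track X)} (hI : I.Ok) (hF : ∀ g ∈ F, g.1 < I.k ∧ I.A g.1 g.2.1 g.2.2 = true)
    (hT : ∀ t ∈ T, t.col < I.k ∧ t.clk < I.k ∧ t.fst ∈ I.nodes ∧ t.lst ∈ I.nodes)
    (hB : T.length ≤ B) :
    gameB I B F T = true ↔ Good I F T.get (fun p => (T.get p).src) := by
  have hT' : ∀ p, (T.get p).col < I.k ∧ (T.get p).clk < I.k := fun p =>
    ⟨(hT _ (T.get_mem p)).1, (hT _ (T.get_mem p)).2.1⟩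
  rw [good_iff hI hF hT']
  unfold gameB
  rw [Bool.and_eq_true, decide_eq_true_eq, g2_map, g2_map, g2_valid, mem_reachG]
  have hsrc : ∀ p, (T.get p).src ∈ I.nodes := by
    intro p
    obtain ⟨_, _, h1, h2⟩ := hT _ (T.get_mem p)
    unfold Track.src
    split_ifs
    · exact h1
    · exact h2
  have hup : ∀ s : Fin T.length → X, (∀ p, s p ∈ I.nodes) → List.ofFn s ∈ upTo B I.nodes := by
    intro s hs
    rw [mem_upTo]
    refine ⟨by rw [List.length_ofFn]; exact hB, ?_⟩
    intro x hx
    rw [List.mem_ofFn] at hx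
    obtain ⟨p, rfl⟩ := hx
    exact hs p
  refine and_congr Iff.rfl ?_
  constructor
  · rintro ⟨_, h⟩
    -- every list reached comes from a function
    have key : ∀ L, ReflTransGen (fun a b => stepB I F T a b = true ∧ b ∈ upTo B I.nodes)
        (List.ofFn fun p => (T.get p).src) L →
        ∃ s, L = List.ofFn s ∧ ReflTransGen (Step I F T.get) (fun p => (T.get p).src) s := by
      intro L hL
      induction hL with
      | refl => exact ⟨_, rfl, .refl⟩
      | tail _ hbc ih =>
        obtain ⟨s, rfl, hs⟩ := ih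
        have h1 := hbc.1
        unfold stepB at h1
        rw [Bool.and_eq_true, Bool.and_eq_true, decide_eq_true_eq, decide_eq_true_eq] at h1
        obtain ⟨s', hs'⟩ := g2_exists_ofFn h1.2.1
        rw [hs'] at hbc
        exact ⟨s', hs', hs.tail (g2_stepB.1 hbc.1)⟩
    obtain ⟨s, hs, hr⟩ := key _ h
    rw [List.ofFn_inj] at hs
    rw [hs]
    exact hr
  · intro h
    refine ⟨hup _ hsrc, ?_⟩
    have key : ∀ s, ReflTransGen (Step I F T.get) (fun p => (T.get p).src) s →
        (∀ p, s p ∈ I.nodes) ∧
        ReflTransGen (fun a b => stepB I F T a b = true ∧ b ∈ upTo B I.nodes)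
          (List.ofFn fun p => (T.get p).src) (List.ofFn s) := by
      intro s hs
      induction hs with
      | refl => exact ⟨hsrc, .refl⟩
      | @tail b c _ hbc ih =>
        have hc : ∀ p, c p ∈ I.nodes := by
          intro p
          by_cases hp : Moves I T.get b p
          · have h1 := (hbc.2.1 p hp).1
            unfold Inst.mv at h1
            rw [Bool.and_eq_true] at h1
            have h2 := h1.1
            split_ifs at h2
            · exact (hI.mem _ _ _ h2).2
            · exact (hI.mem _ _ _ h2).1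
          · rw [hbc.2.2.1 p hp]
            exact ih.1 p
        exact ⟨hc, ih.2.tail ⟨g2_stepB.2 hbc, hup c hc⟩⟩
    exact (key _ h).2

end G2

end Pool.Agent.H614R2.DPO
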