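import Pool.Agent.KS6_49.L8.H614R2.DPO.Algo
import Pool.Agent.KS6_49.L8.H671R2.PolyAuto

/-!
# The algorithm runs in polynomial time
-/

namespace Pool.Agent.H614R2.DPO

open Relation Pool.Agent.NPC

theorem sz_filter_le {α : Type} [TEnc α] (l : List α) (p : α → Bool) :
    sz (l.filter p) ≤ sz l := by
  induction l with
  | nil => simp
  | cons a l ih =>
    rw [List.filter_cons]
    split_ifs
    · rw [sz_list_cons, sz_list_cons]; omega
    · rw [sz_list_cons]; omega

section poly

set_option linter.unusedSectionVars false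

variable {α X : Type} [TEnc α] [TEnc X] [DecidableEq X]

theorem poly_upTo_aux {α β : Type} [TEnc α] [TEnc β] {L : α → List β} {U : α → List (List β)}
    (hL : Poly L) (hU : Poly U) :
    Poly (fun a => [] :: (L a).flatMap (fun x => (U a).map (fun l => x :: l))) := by
  fun_prop

theorem poly_upTo {α β : Type} [TEnc α] [TEnc β] {L : α → List β} (hL : Poly L) :
    ∀ m : ℕ, Poly (fun a => upTo m (L a))
  | 0 => by unfold upTo; exact NPC.Poly.const _
  | m + 1 => by
    have := poly_upTo hL m
    unfold upTo
    exact poly_upTo_aux hL this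

theorem poly_reachG {R : α → X → X → Bool} {S : α → List X} {x : α → X}
    (hR : Poly (fun p : α × X × X => R p.1 p.2.1 p.2.2)) (hS : Poly S) (hx : Poly x) :
    Poly (fun a => reachG (R a) (S a) (x a)) := by
  obtain ⟨q, hq⟩ := hS.sz_le
  unfold reachG
  refine NPC.Poly.iterLen (l := S) (s := fun a => (S a).filter (fun y => decide (y = x a)))
    (F := fun a L => (S a).filter (fun y => decide (y ∈ L) || L.any (fun z => R a z y)))
    hS ?_ ?_ q ?_
  · fun_prop
  · fun_prop
  · intro a k _
    cases k with
    | zero => exact (sz_filter_le _ _).trans (hq a)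
    | succ k =>
      rw [Function.iterate_succ', Function.comp_apply]
      exact (sz_filter_le _ _).trans (hq a)

attribute [fun_prop] poly_reachG
attribute [local irreducible] reachG

/-! ### tracks -/

theorem poly_col {t : α → Track X} (ht : Poly t) : Poly (fun a => (t a).col) := by
  unfold Track.col
  fun_prop

theorem poly_fst {t : α → Track X} (ht : Poly t) : Poly (fun a => (t a).fst) := by
  unfold Track.fst
  fun_prop

theorem poly_lst {t : α → Track X} (ht : Poly t) : Poly (fun a => (t a).lst) := by
  unfold Track.lst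
  fun_prop

theorem poly_clk {t : α → Track X} (ht : Poly t) : Poly (fun a => (t a).clk) := by
  unfold Track.clk
  fun_prop

theorem poly_dir {t : α → Track X} (ht : Poly t) : Poly (fun a => (t a).dir) := by
  unfold Track.dir
  fun_prop

attribute [fun_prop] poly_col poly_fst poly_lst poly_clk poly_dir
attribute [local irreducible] Track.col Track.fst Track.lst Track.clk Track.dir

theorem poly_src {t : α → Track X} (ht : Poly t) : Poly (fun a => (t a).src) := by
  unfold Track.src
  fun_prop

theorem poly_tgt {t : α → Track X} (ht : Poly t) : Poly (fun a => (t a).tgt) := by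
  unfold Track.tgt
  fun_prop

attribute [fun_prop] poly_src poly_tgt
attribute [local irreducible] Track.src Track.tgt

theorem poly_ori {b : α → Bool} {e : α → X × X} (hb : Poly b) (he : Poly e) :
    Poly (fun a => ori (b a) (e a)) := by
  unfold ori
  fun_prop

attribute [fun_prop] poly_ori
attribute [local irreducible] ori

theorem poly_relB {t t' : α → Track X} (ht : Poly t) (ht' : Poly t') :
    Poly (fun a => relB (t a) (t' a)) := by
  unfold relB
  fun_prop

attribute [fun_prop] poly_relB
attribute [local irreducible] relB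

/-! ### the definitions with separate arguments -/

/-- `Inst.mv` with separate arguments -/
def mvS (f : ℕ → X → ℕ) (A : ℕ → X → X → Bool) (t : Track X) (x y : X) : Bool :=
  (if t.dir = true then A t.col x y else A t.col y x) &&
    decide (f t.clk x < f t.clk y)

theorem poly_mvS {f : α → ℕ → X → ℕ} {A : α → ℕ → X → X → Bool} {t : α → Track X}
    {x y : α → X}
    (hf : Poly (fun p : α × ℕ × X => f p.1 p.2.1 p.2.2))
    (hA : Poly (fun p : α × ℕ × X × X => A p.1 p.2.1 p.2.2.1 p.2.2.2))
    (ht : Poly t) (hx : Poly x) (hy : Poly y) :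
    Poly (fun a => mvS (f a) (A a) (t a) (x a) (y a)) := by
  unfold mvS
  fun_prop

attribute [fun_prop] poly_mvS
attribute [local irreducible] mvS

/-- `movesB` with separate arguments -/
def movesS (f : ℕ → X → ℕ) (Z : List (Track X × X × X)) (z : Track X × X × X) : Bool :=
  decide (z.2.1 ≠ z.1.tgt) && Z.all (fun z' => decide (z'.2.1 = z'.1.tgt) ||
    decide (f z.1.clk z.2.1 ≤ f z'.1.clk z'.2.1))

theorem poly_movesS {f : α → ℕ → X → ℕ} {Z : α → List (Track X × X × X)}
    {z : α → Track X × X × X}
    (hf : Poly (fun p : α × ℕ × X => f p.1 p.2.1 p.2.2))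
    (hZ : Poly Z) (hz : Poly z) :
    Poly (fun a => movesS (f a) (Z a) (z a)) := by
  unfold movesS
  fun_prop

attribute [fun_prop] poly_movesS
attribute [local irreducible] movesS

/-- `validB` with separate arguments -/
def validS (C : X × X → X × X → Bool) (T : List (Track X)) (S : List X) : Bool :=
  (T.zip S).all (fun a => (T.zip S).all (fun b =>
    !(relB a.1 b.1) || !(C (a.2, a.2) (b.2, b.2))))

theorem poly_validS {C : α → X × X → X × X → Bool} {T : α → List (Track X)} {S : α → List X}
    (hC : Poly (fun p : α × (X × X) × (X × X) => C p.1 p.2.1 p.2.2))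
    (hT : Poly T) (hS : Poly S) : Poly (fun a => validS (C a) (T a) (S a)) := by
  unfold validS
  fun_prop

attribute [fun_prop] poly_validS
attribute [local irreducible] validS

/-- `moveB` with separate arguments -/
def moveS (f : ℕ → X → ℕ) (A : ℕ → X → X → Bool) (C : X × X → X × X → Bool)
    (F : List (ℕ × X × X)) (Z : List (Track X × X × X)) : Bool :=
  Z.all (fun z =>
    if movesS f Z z = true then
      mvS f A z.1 z.2.1 z.2.2 &&
      (F.all (fun g => decide (g.1 = z.1.col) || !(C g.2 (ori z.1.dir z.2))) &&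
      Z.all (fun z' => !(relB z.1 z'.1) || (!(movesS f Z z') ||
        !(C (ori z.1.dir z.2) (ori z'.1.dir z'.2)))))
    else decide (z.2.2 = z.2.1))

theorem poly_moveS {f : α → ℕ → X → ℕ} {A : α → ℕ → X → X → Bool}
    {C : α → X × X → X × X → Bool} {F : α → List (ℕ × X × X)}
    {Z : α → List (Track X × X × X)}
    (hf : Poly (fun p : α × ℕ × X => f p.1 p.2.1 p.2.2))
    (hA : Poly (fun p : α × ℕ × X × X => A p.1 p.2.1 p.2.2.1 p.2.2.2))
    (hC : Poly (fun p : α × (X × X) × (X × X) => C p.1 p.2.1 p.2.2))
    (hF : Poly F) (hZ : Poly Z) :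
    Poly (fun a => moveS (f a) (A a) (C a) (F a) (Z a)) := by
  unfold moveS
  fun_prop

attribute [fun_prop] poly_moveS
attribute [local irreducible] moveS

/-- `stepB` with separate arguments -/
def stepS (f : ℕ → X → ℕ) (A : ℕ → X → X → Bool) (C : X × X → X × X → Bool)
    (F : List (ℕ × X × X)) (T : List (Track X)) (S S' : List X) : Bool :=
  decide (S.length = T.length) && (decide (S'.length = T.length) &&
    (validS C T S && moveS f A C F (T.zip (S.zip S'))))

theorem poly_stepS {f : α → ℕ → X → ℕ} {A : α → ℕ → X → X → Bool}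
    {C : α → X × X → X × X → Bool} {F : α → List (ℕ × X × X)}
    {T : α → List (Track X)} {S S' : α → List X}
    (hf : Poly (fun p : α × ℕ × X => f p.1 p.2.1 p.2.2))
    (hA : Poly (fun p : α × ℕ × X × X => A p.1 p.2.1 p.2.2.1 p.2.2.2))
    (hC : Poly (fun p : α × (X × X) × (X × X) => C p.1 p.2.1 p.2.2))
    (hF : Poly F) (hT : Poly T) (hS : Poly S) (hS' : Poly S') :
    Poly (fun a => stepS (f a) (A a) (C a) (F a) (T a) (S a) (S' a)) := by
  unfold stepS
  fun_prop

attribute [fun_prop] poly_stepS
attribute [local irreducible] stepS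

/-- `gameB` with separate arguments -/
def gameS (nodes : List X) (f : ℕ → X → ℕ) (A : ℕ → X → X → Bool)
    (C : X × X → X × X → Bool) (B : ℕ) (F : List (ℕ × X × X)) (T : List (Track X)) : Bool :=
  validS C T (T.map Track.tgt) &&
    decide (T.map Track.tgt ∈ reachG (stepS f A C F T) (upTo B nodes) (T.map Track.src))

theorem poly_gameS (B : ℕ) {nodes : α → List X} {f : α → ℕ → X → ℕ}
    {A : α → ℕ → X → X → Bool}
    {C : α → X × X → X × X → Bool} {F : α → List (ℕ × X × X)}
    {T : α → List (Track X)} (hn : Poly nodes)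
    (hf : Poly (fun p : α × ℕ × X => f p.1 p.2.1 p.2.2))
    (hA : Poly (fun p : α × ℕ × X × X => A p.1 p.2.1 p.2.2.1 p.2.2.2))
    (hC : Poly (fun p : α × (X × X) × (X × X) => C p.1 p.2.1 p.2.2))
    (hF : Poly F) (hT : Poly T) :
    Poly (fun a => gameS (nodes a) (f a) (A a) (C a) B (F a) (T a)) := by
  unfold gameS
  have h0 := poly_upTo hn B
  have h1 : Poly (fun a => (T a).map Track.tgt) := by
    refine NPC.Poly.map (F := fun _ t => Track.tgt t) hT ?_
    fun_prop
  have h2 : Poly (fun a => (T a).map Track.src) := by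
    refine NPC.Poly.map (F := fun _ t => Track.src t) hT ?_
    fun_prop
  have h3 : Poly (fun a => reachG (stepS (f a) (A a) (C a) (F a) (T a)) (upTo B (nodes a))
      ((T a).map Track.src)) := by
    refine poly_reachG ?_ h0 h2
    fun_prop
  exact NPC.Poly.and (poly_validS hC hT h1) (NPC.Poly.dec_mem h1 h3)

attribute [fun_prop] poly_gameS
attribute [local irreducible] gameS

/-! ### Certificates -/

theorem poly_links {L : α → List (X × X × ℕ × Bool)} (hL : Poly L) :
    Poly (fun a => links (L a)) := by
  unfold links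
  fun_prop

attribute [fun_prop] poly_links
attribute [local irreducible] links

/-- `colOk` with separate arguments -/
def colS (A : ℕ → X → X → Bool) (S T : ℕ → X → Bool) (i : ℕ)
    (L : List (X × X × ℕ × Bool)) : Bool :=
  L.head?.any (fun q => S i q.1) && (L.reverse.head?.any (fun q => T i q.2.1) &&
    (links L).all (fun e => A i e.1 e.2))

theorem poly_colS {A : α → ℕ → X → X → Bool} {S T : α → ℕ → X → Bool} {i : α → ℕ}
    {L : α → List (X × X × ℕ × Bool)}
    (hA : Poly (fun p : α × ℕ × X × X => A p.1 p.2.1 p.2.2.1 p.2.2.2))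
    (hS : Poly (fun p : α × ℕ × X => S p.1 p.2.1 p.2.2))
    (hT : Poly (fun p : α × ℕ × X => T p.1 p.2.1 p.2.2))
    (hi : Poly i) (hL : Poly L) :
    Poly (fun a => colS (A a) (S a) (T a) (i a) (L a)) := by
  unfold colS
  fun_prop

attribute [fun_prop] poly_colS
attribute [local irreducible] colS

theorem poly_tracks {Ct : α → List (List (X × X × ℕ × Bool))} (hC : Poly Ct) :
    Poly (fun a => tracks (Ct a)) := by
  unfold tracks
  fun_prop

theorem poly_fixedArcs {Ct : α → List (List (X × X × ℕ × Bool))} (hC : Poly Ct) :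
    Poly (fun a => fixedArcs (Ct a)) := by
  unfold fixedArcs
  fun_prop

attribute [fun_prop] poly_tracks poly_fixedArcs
attribute [local irreducible] tracks fixedArcs

/-- `sem` with separate arguments -/
def semS (nodes : List X) (A : ℕ → X → X → Bool) (t : Track X) : List (X × X) :=
  nodes.flatMap (fun x => (nodes.filter (fun y =>
    decide (x ∈ reachG (A t.col) nodes t.fst) && ((decide (x = y) || A t.col x y) &&
      decide (t.lst ∈ reachG (A t.col) nodes y)))).map (fun y => (x, y)))

theorem poly_semS {nodes : α → List X} {A : α → ℕ → X → X → Bool} {t : α → Track X}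
    (hn : Poly nodes)
    (hA : Poly (fun p : α × ℕ × X × X => A p.1 p.2.1 p.2.2.1 p.2.2.2))
    (ht : Poly t) :
    Poly (fun a => semS (nodes a) (A a) (t a)) := by
  unfold semS
  fun_prop

attribute [fun_prop] poly_semS
attribute [local irreducible] semS

/-- `linkFree` with separate arguments -/
def linkS (nodes : List X) (A : ℕ → X → X → Bool) (C : X × X → X × X → Bool)
    (T : List (Track X)) : Bool :=
  T.all (fun t => T.all (fun t' => decide (t.col = t'.col) || (decide (t.clk = t'.clk) ||
    (semS nodes A t).all (fun e => (semS nodes A t').all (fun e' => !(C e e'))))))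

theorem poly_linkS {nodes : α → List X} {A : α → ℕ → X → X → Bool}
    {C : α → X × X → X × X → Bool} {T : α → List (Track X)}
    (hn : Poly nodes)
    (hA : Poly (fun p : α × ℕ × X × X => A p.1 p.2.1 p.2.2.1 p.2.2.2))
    (hC : Poly (fun p : α × (X × X) × (X × X) => C p.1 p.2.1 p.2.2))
    (hT : Poly T) :
    Poly (fun a => linkS (nodes a) (A a) (C a) (T a)) := by
  unfold linkS
  fun_prop

attribute [fun_prop] poly_linkS
attribute [local irreducible] linkS

/-- `fixOk` with separate arguments -/
def fixS (C : X × X → X × X → Bool) (F : List (ℕ × X × X)) : Bool :=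
  F.all (fun g => F.all (fun g' => decide (g.1 = g'.1) || !(C g.2 g'.2)))

theorem poly_fixS {C : α → X × X → X × X → Bool} {F : α → List (ℕ × X × X)}
    (hC : Poly (fun p : α × (X × X) × (X × X) => C p.1 p.2.1 p.2.2))
    (hF : Poly F) : Poly (fun a => fixS (C a) (F a)) := by
  unfold fixS
  fun_prop

attribute [fun_prop] poly_fixS
attribute [local irreducible] fixS

/-- `chk` with separate arguments -/
def chkS (k : ℕ) (nodes : List X) (f : ℕ → X → ℕ) (A : ℕ → X → X → Bool)
    (S T : ℕ → X → Bool) (C : X × X → X × X → Bool) (B : ℕ)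
    (Ct : List (List (X × X × ℕ × Bool))) : Bool :=
  decide (Ct.length = k) && (Ct.zipIdx.all (fun p => colS A S T p.2 p.1) &&
    (fixS C (fixedArcs Ct) && (linkS nodes A C (tracks Ct) &&
      gameS nodes f A C B (fixedArcs Ct) (tracks Ct))))

theorem poly_chkS (k B : ℕ) {nodes : α → List X} {f : α → ℕ → X → ℕ}
    {A : α → ℕ → X → X → Bool} {S T : α → ℕ → X → Bool}
    {C : α → X × X → X × X → Bool} {Ct : α → List (List (X × X × ℕ × Bool))}
    (hn : Poly nodes)
    (hf : Poly (fun p : α × ℕ × X => f p.1 p.2.1 p.2.2))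
    (hA : Poly (fun p : α × ℕ × X × X => A p.1 p.2.1 p.2.2.1 p.2.2.2))
    (hS : Poly (fun p : α × ℕ × X => S p.1 p.2.1 p.2.2))
    (hT : Poly (fun p : α × ℕ × X => T p.1 p.2.1 p.2.2))
    (hC : Poly (fun p : α × (X × X) × (X × X) => C p.1 p.2.1 p.2.2))
    (hCt : Poly Ct) :
    Poly (fun a => chkS k (nodes a) (f a) (A a) (S a) (T a) (C a) B (Ct a)) := by
  unfold chkS
  fun_prop

attribute [fun_prop] poly_chkS
attribute [local irreducible] chkS

theorem poly_cands (k : ℕ) {nodes : α → List X} (hn : Poly nodes) :
    Poly (fun a => (nodes a).flatMap (fun x => (nodes a).flatMap (fun y =>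
      (List.range k).flatMap (fun l => [(x, y, l, true), (x, y, l, false)])))) := by
  fun_prop

end poly

theorem poly_solve {α X : Type} [TEnc α] [TEnc X] [DecidableEq X] (k : ℕ)
    {nodes : α → List X} {f : α → ℕ → X → ℕ} {A : α → ℕ → X → X → Bool}
    {S T : α → ℕ → X → Bool} {C : α → X × X → X × X → Bool} (hn : Poly nodes)
    (hf : Poly (fun p : α × ℕ × X => f p.1 p.2.1 p.2.2))
    (hA : Poly (fun p : α × ℕ × X × X => A p.1 p.2.1 p.2.2.1 p.2.2.2))
    (hS : Poly (fun p : α × ℕ × X => S p.1 p.2.1 p.2.2))
    (hT : Poly (fun p : α × ℕ × X => T p.1 p.2.1 p.2.2))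
    (hC : Poly (fun p : α × (X × X) × (X × X) => C p.1 p.2.1 p.2.2)) :
    Poly (fun a => solve ⟨k, nodes a, f a, A a, S a, T a, C a⟩) := by
  have h1 : Poly (fun a => upTo k (upTo (bnd k) ((nodes a).flatMap (fun x =>
      (nodes a).flatMap (fun y =>
      (List.range k).flatMap (fun l => [(x, y, l, true), (x, y, l, false)])))))) :=
    poly_upTo (poly_upTo (poly_cands k hn) _) _
  have h2 : Poly (fun a => (upTo k (upTo (bnd k) ((nodes a).flatMap (fun x =>
      (nodes a).flatMap (fun y =>
      (List.range k).flatMap (fun l => [(x, y, l, true), (x, y, l, false)])))))).any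
      (fun Ct => chkS k (nodes a) (f a) (A a) (S a) (T a) (C a) (k * bnd k) Ct)) := by
    refine NPC.Poly.any (p := fun a Ct => chkS k (nodes a) (f a) (A a) (S a) (T a) (C a)
      (k * bnd k) Ct) h1 ?_
    exact poly_chkS k (k * bnd k) (by fun_prop) (by fun_prop) (by fun_prop) (by fun_prop)
      (by fun_prop) (by fun_prop) (by fun_prop)
  exact h2

end Pool.Agent.H614R2.DPO
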